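import Pool.Agent.H75.TH.Exc
import Pool.Agent.H47.ST.Free

/-!
# Project FULL: splitting of cocycles
-/

set_option autoImplicit false

namespace Pool.Agent.H15.FU

open Pool.Agent.H47.ST Pool.Agent.H75.TH

variable {ι : Type*} [Fintype ι] {F : Type*} [Field F]

theorem SplA_cut_apply (P : Finset (ι → ℤ) → Prop) (c : Co ι F) (σ : Finset (ι → ℤ)) :
    (P σ → cut P c σ = c σ) ∧ (¬ P σ → cut P c σ = 0) := by
  classical
  rw [cut_apply]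
  exact ⟨fun h => if_pos h, fun h => if_neg h⟩

/-- the part of a cochain on the simplices in `M₊` -/
theorem SplA_cut_mem {L : AddSubgroup (ι → ℤ)} {C Mp Mm B : Set (ι → ℤ)} (hMp : Inv L Mp)
    (hinter : ∀ v, v ∈ Mp → v ∈ Mm → v ∈ C) {j : ℕ} {y : Co ι F}
    (hy : y ∈ co (F := F) L B C j) :
    cut (fun σ => ∀ v ∈ σ, v ∈ Mp) y ∈ co (F := F) L B Mm j ⊓ co (F := F) L B C j := by
  have hinv : ∀ l ∈ L, ∀ σ, cut (fun σ => ∀ v ∈ σ, v ∈ Mp) y (tr l σ) =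
      cut (fun σ => ∀ v ∈ σ, v ∈ Mp) y σ := by
    intro l hl σ
    have h3 : (∀ v ∈ tr l σ, v ∈ Mp) ↔ ∀ v ∈ σ, v ∈ Mp := by
      constructor
      · intro h v hv
        exact (hMp l hl v).2 (h _ (CellA_tr_mem.2 ⟨v, hv, rfl⟩))
      · intro h w hw
        obtain ⟨v, hv, rfl⟩ := CellA_tr_mem.1 hw
        exact (hMp l hl v).1 (h v hv)
    by_cases h4 : ∀ v ∈ σ, v ∈ Mp
    · rw [(SplA_cut_apply _ y σ).1 h4, (SplA_cut_apply _ y (tr l σ)).1 (h3.2 h4), hy.1 l hl]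
    · rw [(SplA_cut_apply _ y σ).2 h4, (SplA_cut_apply _ y (tr l σ)).2 fun h5 => h4 (h3.1 h5)]
  refine ⟨⟨hinv, fun σ hσ => ?_⟩, ⟨hinv, fun σ hσ => ?_⟩⟩
  · by_cases h4 : ∀ v ∈ σ, v ∈ Mp
    · rw [(SplA_cut_apply _ y σ).1 h4] at hσ
      obtain ⟨h5, h6, h7⟩ := hy.2 σ hσ
      exact ⟨h5, fun h8 => h6 fun v hv => hinter v (h4 v hv) (h8 v hv), h7⟩
    · exact absurd ((SplA_cut_apply _ y σ).2 h4) hσ
  · by_cases h4 : ∀ v ∈ σ, v ∈ Mp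
    · rw [(SplA_cut_apply _ y σ).1 h4] at hσ
      exact hy.2 σ hσ
    · exact absurd ((SplA_cut_apply _ y σ).2 h4) hσ

/-- the part outside `M₊` -/
theorem SplA_sub_mem {L : AddSubgroup (ι → ℤ)} {C Mp Mm B : Set (ι → ℤ)} (hMp : Inv L Mp)
    (hinter : ∀ v, v ∈ Mp → v ∈ Mm → v ∈ C) {j : ℕ} {y : Co ι F}
    (hy : y ∈ co (F := F) L B C j) :
    y - cut (fun σ => ∀ v ∈ σ, v ∈ Mp) y ∈ co (F := F) L B Mp j ⊓ co (F := F) L B C j := by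
  have h1 := Submodule.sub_mem _ hy (SplA_cut_mem (Mm := Mm) hMp hinter hy).2
  refine ⟨⟨h1.1, fun σ hσ => ?_⟩, h1⟩
  obtain ⟨h2, h3, h4⟩ := h1.2 σ hσ
  refine ⟨h2, fun h5 => hσ ?_, h4⟩
  rw [Pi.sub_apply, (SplA_cut_apply _ y σ).1 h5, sub_self]

/-- a cochain which vanishes on `M₊` and on `M₋` vanishes on `U ⊆ M₊ ∪ M₋` -/
theorem SplA_inter {L : AddSubgroup (ι → ℤ)} {Mp Mm U B : Set (ι → ℤ)}
    (hunion : ∀ v, v ∈ U → v ∈ Mp ∨ v ∈ Mm)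
    (hsep : ∀ v w, Adj v w → v ∈ Mp → v ∉ Mm → w ∈ Mm → w ∈ Mp) {j : ℕ} {c : Co ι F}
    (hp : c ∈ co (F := F) L B Mp j) (hm : c ∈ co (F := F) L B Mm j) :
    c ∈ co (F := F) L B U j := by
  refine ⟨hp.1, fun σ hσ => ?_⟩
  obtain ⟨h1, h2, h3⟩ := hp.2 σ hσ
  obtain ⟨-, h4, -⟩ := hm.2 σ hσ
  refine ⟨h1, fun hU => h2 ?_, h3⟩
  push Not at h4
  obtain ⟨w, hw, hwm⟩ := h4
  have hwp : w ∈ Mp := (hunion w (hU w hw)).resolve_right hwm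
  intro v hv
  rcases hunion v (hU v hv) with h7 | h7
  · exact h7
  · exact hsep w v (h1.1 w hw v hv) hwp hwm h7

/-- **One piece.** -/
theorem split_one {L : AddSubgroup (ι → ℤ)} {A' Mp Mm U B : Set (ι → ℤ)} (hMp : Inv L Mp)
    (hB : Inv L B) (hinter : ∀ v, v ∈ Mp → v ∈ Mm → v ∈ A')
    (hunion : ∀ v, v ∈ U → v ∈ Mp ∨ v ∈ Mm) (hpU : Mp ⊆ U)
    (hsep : ∀ v w, Adj v w → v ∈ Mp → v ∉ Mm → w ∈ Mm → w ∈ Mp)
    {j : ℕ} (hU : HR F L B U j 0) {u u' y : Co ι F} (hu : u ∈ co (F := F) L B Mp (j + 1))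
    (hu' : u' ∈ co (F := F) L B Mm (j + 1)) (hdu : dX B u = 0)
    (hy : y ∈ co (F := F) L B A' j) (hyu : u - u' = dX B y) :
    ∃ z ∈ co (F := F) L B Mp j, dX B z = u := by
  obtain ⟨h1, -⟩ := SplA_cut_mem (Mm := Mm) hMp hinter hy
  obtain ⟨h2, -⟩ := SplA_sub_mem (Mm := Mm) hMp hinter hy
  set y2 : Co ι F := cut (fun σ => ∀ v ∈ σ, v ∈ Mp) y with hy2
  have h3 : u - dX B (y - y2) = u' + dX B y2 := by
    rw [map_sub, ← hyu]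
    abel
  have hp : u - dX B (y - y2) ∈ co (F := F) L B Mp (j + 1) :=
    Submodule.sub_mem _ hu (dX_mem hB h2)
  have hm : u - dX B (y - y2) ∈ co (F := F) L B Mm (j + 1) := by
    rw [h3]
    exact Submodule.add_mem _ hu' (dX_mem hB h1)
  obtain ⟨w, hw, hwx⟩ := Exc_HR.1 hU _ (SplA_inter hunion hsep hp hm)
    (by rw [map_sub, dX_dX, sub_zero, hdu])
  refine ⟨(y - y2) + w, Submodule.add_mem _ h2 (co_anti hpU j hw), ?_⟩
  rw [map_add, hwx]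
  abel

/-- **Removing one piece.** -/
theorem split_dec {L : AddSubgroup (ι → ℤ)} {C C' Mp Mm U B : Set (ι → ℤ)}
    (hMp : Inv L Mp) (hB : Inv L B) (hinter : ∀ v, v ∈ Mp → v ∈ Mm → v ∈ C)
    (hunion : ∀ v, v ∈ U → v ∈ Mp ∨ v ∈ Mm)
    (hsep : ∀ v w, Adj v w → v ∈ Mp → v ∉ Mm → w ∈ Mm → w ∈ Mp)
    (hpU : Mp ⊆ U) (hCU : C ⊆ U) (hC'U : C' ⊆ U)
    (hC' : ∀ σ, Simp σ → (∀ v ∈ σ, v ∈ C') → (∀ v ∈ σ, v ∈ C) ∨ ∀ v ∈ σ, v ∈ Mm)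
    {j : ℕ} (hU : HR F L B U (j + 1) 0) {x : Co ι F} (hx : x ∈ co (F := F) L B C (j + 1))
    (hdx : dX B x = 0) :
    ∃ x1 ∈ co (F := F) L B Mp (j + 1), ∃ x2 ∈ co (F := F) L B C' (j + 1),
      dX B x1 = 0 ∧ dX B x2 = 0 ∧ x = x1 + x2 := by
  obtain ⟨h1, h1C⟩ := SplA_cut_mem (Mm := Mm) hMp hinter hx
  obtain ⟨h2, -⟩ := SplA_sub_mem (Mm := Mm) hMp hinter hx
  set x2 : Co ι F := cut (fun σ => ∀ v ∈ σ, v ∈ Mp) x with hx2
  have h3 : dX B x2 = - dX B (x - x2) := by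
    rw [map_sub, hdx]
    abel
  have hm : dX B x2 ∈ co (F := F) L B Mm (j + 2) := dX_mem hB h1
  have hp : dX B x2 ∈ co (F := F) L B Mp (j + 2) := by
    rw [h3]
    exact Submodule.neg_mem _ (dX_mem hB h2)
  obtain ⟨w, hw, hwx⟩ := Exc_HR.1 hU _ (SplA_inter hunion hsep hp hm) (dX_dX B x2)
  refine ⟨(x - x2) + w, Submodule.add_mem _ h2 (co_anti hpU _ hw), x2 - w, ?_, ?_, ?_, by abel⟩
  · have h4 : x2 - w ∈ co (F := F) L B C (j + 1) :=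
      Submodule.sub_mem _ h1C (co_anti hCU _ hw)
    refine ⟨h4.1, fun σ hσ => ?_⟩
    obtain ⟨h5, h6, h7⟩ := h4.2 σ hσ
    refine ⟨h5, fun h8 => ?_, h7⟩
    rcases hC' σ h5.1 h8 with h9 | h9
    · exact h6 h9
    · apply hσ
      have e1 : x2 σ = 0 := by
        by_contra h10
        exact (h1.2 σ h10).2.1 h9
      have e2 : w σ = 0 := by
        by_contra h10
        exact (hw.2 σ h10).2.1 fun v hv => hC'U (h8 v hv)
      rw [Pi.sub_apply, e1, e2, sub_zero]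
  · rw [map_add, map_sub, hdx, hwx]
    abel
  · rw [map_sub, hwx, sub_self]

/-- **Lowering the bottom.** If `(A', A)` is acyclic then a cochain of `(B, A)` with coboundary in
`(B, A')` can be changed to a cochain of `(B, A')`. -/
theorem split_low {L : AddSubgroup (ι → ℤ)} {A A' B : Set (ι → ℤ)} (hA' : Inv L A') (hB : Inv L B)
    (hAA' : A ⊆ A') (hA'B : A' ⊆ B) (h1 : ∀ j, HR F L A' A j 0) {j : ℕ} {y x : Co ι F}
    (hy : y ∈ co (F := F) L B A j) (hx : x ∈ co (F := F) L B A' (j + 1)) (hyx : x = dX B y) :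
    ∃ z ∈ co (F := F) L B A' j, x = dX B z := by
  have h3 : HK (dX B) (co (F := F) L B A) (co (F := F) L B A') j 0 := by
    cases j with
    | zero => exact HK_co_zero 0
    | succ j => exact HR.rel hB hA' hAA' hA'B (h1 j)
  obtain ⟨z, hz, hyz⟩ := RK_zero.1 h3 y hy (by rw [← hyx]; exact hx)
  refine ⟨y - dX B z, hyz, ?_⟩
  rw [map_sub, dX_dX, sub_zero, hyx]

/-- **Lowering the bottom of a cocycle.** -/
theorem split_low' {L : AddSubgroup (ι → ℤ)} {A A' B : Set (ι → ℤ)} (hA' : Inv L A') (hB : Inv L B)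
    (hAA' : A ⊆ A') (hA'B : A' ⊆ B) (h1 : ∀ j, HR F L A' A j 0) {j : ℕ} {x : Co ι F}
    (hx : x ∈ co (F := F) L B A (j + 1)) (hdx : dX B x = 0) :
    ∃ z ∈ co (F := F) L B A j, x - dX B z ∈ co (F := F) L B A' (j + 1) := by
  have h3 := HR.rel (X := B) hB hA' hAA' hA'B (h1 j)
  obtain ⟨z, hz, hyz⟩ := RK_zero.1 h3 x hx (by rw [hdx]; exact Submodule.zero_mem _)
  exact ⟨z, hz, hyz⟩

end Pool.Agent.H15.FU
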