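import Pool.Agent.H75.TH.NoCan
import Pool.Agent.H15.FU.SplA

/-!
# Project FULL: local splitting of a thin band

If a permutation of the coordinates acts as the identity on the cohomology of a thin band and fixes
none of its critical points, then the band is acyclic.
-/

set_option autoImplicit false

namespace Pool.Agent.H15.FU

open Filter Topology QuadraticForm
open Pool.Agent.H47.ST Pool.Agent.H75.TH

variable {ι : Type*} [Fintype ι] [DecidableEq ι]

omit [Fintype ι] [DecidableEq ι] in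
/-- image of a cochain under the permutation -/
theorem Spl_T_mem {F : Type*} [Field F] {π : Equiv.Perm ι} {L : AddSubgroup (ι → ℤ)}
    (hL : ∀ l ∈ L, l ∘ π = l) {B Mp Mm : Set (ι → ℤ)} (hB : PInv π B)
    (hM : ∀ v, v ∈ Mm → v ∘ π ∈ Mp) {j : ℕ} {c : Co ι F}
    (hc : c ∈ co (F := F) L B Mp j) : Tp π c ∈ co (F := F) L B Mm j := by
  refine ⟨fun l hl σ => ?_, fun σ hσ => ?_⟩
  · rw [Free_Tp, Free_Tp, Free_tr (hL l hl), hc.1 l hl]
  · rw [Free_Tp] at hσ
    obtain ⟨h1, h2, h3⟩ := hc.2 _ hσ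
    rw [Free_card] at h3
    refine ⟨(Free_In hB).1 h1, fun h4 => h2 fun w hw => ?_, h3⟩
    obtain ⟨v, hv, rfl⟩ := Free_mem.1 hw
    exact hM v (h4 v hv)

omit [DecidableEq ι] in
/-- points in two balls -/
theorem Spl_disj {L : AddSubgroup (ι → ℤ)} {Z : Finset (ι → ℝ)} {r : ℝ} (hd : Disj L Z r)
    {z z' : ι → ℝ} (hz : z ∈ Z) (hz' : z' ∈ Z) {l l' : ι → ℤ} (hl : l ∈ L) (hl' : l' ∈ L)
    {y : ι → ℝ} (h1 : y ∈ Metric.closedBall (z + rl l) r)
    (h2 : y ∈ Metric.closedBall (z' + rl l') r) : z = z' := by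
  refine (hd z hz z' hz' (l - l') (L.sub_mem hl hl') (y - rl l') ?_ (Win_sub_mem h2)).1
  rw [Metric.mem_closedBall, dist_eq_norm] at h1 ⊢
  have e : rl (l - l') = rl l - rl l' := by
    funext i
    simp [rl]
  rw [e, show y - rl l' - (z + (rl l - rl l')) = y - (z + rl l) by abel]
  exact h1

omit [DecidableEq ι] in
/-- critical points of a sum of disjoint small modifications -/
theorem Spl_sum {L : AddSubgroup (ι → ℤ)} {f : (ι → ℝ) → ℝ} {Z : Finset (ι → ℝ)} {r : ℝ}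
    (hd : Disj L Z r) (c : (ι → ℝ) → (ι → ℝ) → ℝ)
    (h0 : ∀ z ∈ Z, ∀ y, (∀ l ∈ L, y ∉ Metric.closedBall (z + rl l) r) → ∀ᶠ x in 𝓝 y, c z x = 0)
    {ε : ℝ} (hε : ∀ z ∈ Z, ∀ y, fderiv ℝ (fun x => f x + ε * c z x) y = 0 ↔ fderiv ℝ f y = 0)
    (y : ι → ℝ) :
    fderiv ℝ (fun x => f x + ε * ∑ z ∈ Z, c z x) y = 0 ↔ fderiv ℝ f y = 0 := by
  classical
  by_cases hy : ∃ z ∈ Z, ∃ l ∈ L, y ∈ Metric.closedBall (z + rl l) r
  · obtain ⟨z, hz, l, hl, hyl⟩ := hy
    have h1 : ∀ᶠ x in 𝓝 y, ∀ z' ∈ Z, z' ≠ z → c z' x = 0 := by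
      rw [Filter.eventually_all_finset]
      intro z' hz'
      by_cases hne : z' = z
      · exact Filter.Eventually.of_forall fun x h => absurd hne h
      · filter_upwards [h0 z' hz' y fun l' hl' hyl' =>
          hne (Spl_disj hd hz' hz hl' hl hyl' hyl)] with x hx _
        exact hx
    have h2 : (fun x => f x + ε * ∑ z ∈ Z, c z x) =ᶠ[𝓝 y] fun x => f x + ε * c z x := by
      filter_upwards [h1] with x hx
      rw [Finset.sum_eq_single_of_mem z hz fun z' hz' hne => hx z' hz' hne]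
    rw [h2.fderiv_eq]
    exact hε z hz y
  · push Not at hy
    have h1 : ∀ᶠ x in 𝓝 y, ∀ z' ∈ Z, c z' x = 0 := by
      rw [Filter.eventually_all_finset]
      intro z' hz'
      exact h0 z' hz' y (hy z' hz')
    have h2 : (fun x => f x + ε * ∑ z ∈ Z, c z x) =ᶠ[𝓝 y] f := by
      filter_upwards [h1] with x hx
      rw [Finset.sum_eq_zero hx, mul_zero, add_zero]
    rw [h2.fderiv_eq]

/-- **Local splitting.** All critical points of the band have the value `v` and none of them is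
fixed by `π` modulo `L`. If `π` acts as the identity on the cohomology of the band in one degree
then this cohomology is zero. -/
theorem split_dead (F : Type*) [Field F] {L : AddSubgroup (ι → ℤ)} {q Q f : (ι → ℝ) → ℝ}
    {R a b₁ b₂ : ℝ} {W : Finset (ι → ℝ)} (h : Band L q Q f R a b₁ b₂ W) {v : ℝ}
    (hv : ∀ z ∈ W, f z = v) (π : Equiv.Perm ι) (hL : ∀ l ∈ L, l ∘ π = l)
    (hq : ∀ y, q (y ∘ π) = q y) (hQ : ∀ y, Q (y ∘ π) = Q y) (hf : ∀ y, f (y ∘ π) = f y)
    (hfree : ∀ z ∈ W, ∀ l ∈ L, z ∘ π ≠ z + rl l) :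
    ∀ᶠ M : ℕ in atTop, ∀ j,
      (∀ c ∈ co (F := F) (lam L (2 ^ M)) (Lv q Q f R a b₂ (2 ^ M)) (Lv q Q f R a b₁ (2 ^ M)) (j + 1),
        dX (Lv q Q f R a b₂ (2 ^ M)) c = 0 →
        ∃ y ∈ co (F := F) (lam L (2 ^ M)) (Lv q Q f R a b₂ (2 ^ M)) (Lv q Q f R a b₁ (2 ^ M)) j,
          c - Tp π c = dX (Lv q Q f R a b₂ (2 ^ M)) y) →
      HR F (lam L (2 ^ M)) (Lv q Q f R a b₂ (2 ^ M)) (Lv q Q f R a b₁ (2 ^ M)) j 0 := by
  classical
  rcases W.eq_empty_or_nonempty with rfl | hne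
  · filter_upwards [window_out F h] with M hM j _
    exact hM j fun z hz => absurd hz (Finset.notMem_empty z)
  -- the radius
  obtain ⟨r, hr, hd, hin, hdπ⟩ : ∃ r > 0, Disj L W r ∧ (∀ z ∈ W, ∀ y ∈ Metric.closedBall z r,
      q y < R ∧ -a < Q y ∧ b₁ < f y ∧ f y < b₂) ∧ ∀ z ∈ W, Disj L {z, z ∘ π} r := by
    obtain ⟨r0, hr0, hd0, hin0⟩ := Win_rad h
    have h1 : ∀ᶠ r in 𝓝[>] (0 : ℝ), ∀ z ∈ W, Disj L {z, z ∘ π} r := by
      rw [Filter.eventually_all_finset]
      intro z hz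
      refine Disj_small L {z, z ∘ π} fun y hy y' hy' l hl hyy => ?_
      rw [Finset.mem_insert, Finset.mem_singleton] at hy hy'
      have key : z = z ∘ π + rl l → False := by
        intro h2
        refine hfree z hz (-l) (L.neg_mem hl) ?_
        have e : rl (-l) = -rl l := by
          funext i
          simp [rl]
        rw [e, ← sub_eq_add_neg, eq_sub_iff_add_eq]
        exact h2.symm
      rcases hy with rfl | rfl <;> rcases hy' with rfl | rfl
      · rfl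
      · exact absurd hyy (hfree _ hz l hl)
      · exact (key hyy).elim
      · rfl
    obtain ⟨r, ⟨h2, h3⟩, h4⟩ := ((h1.and (nhdsWithin_le_nhds (gt_mem_nhds hr0))).and
      self_mem_nhdsWithin).exists
    refine ⟨r, h4, fun z hz z' hz' l hl y hy hy' => hd0 z hz z' hz' l hl y
      (Metric.closedBall_subset_closedBall h3.le hy)
      (Metric.closedBall_subset_closedBall h3.le hy'), fun z hz y hy => hin0 z hz y
      (Metric.closedBall_subset_closedBall h3.le hy), h2⟩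
  have hiso := Win_unique h hr hd hin
  have hd0 : ∀ z ∈ W, ∀ r' ≤ r, Disj L {z} r' := by
    intro z₀ hz₀ r' hr' z hz z' hz' l hl y hy hy'
    rw [Finset.mem_singleton] at hz hz'
    rw [hz] at hy ⊢
    rw [hz'] at hy' ⊢
    exact hd z₀ hz₀ z₀ hz₀ l hl y (Metric.closedBall_subset_closedBall hr' hy)
      (Metric.closedBall_subset_closedBall hr' hy')
  have hfc : Continuous f := h.smooth.continuous
  -- room for the modification
  have hroom : ∀ᶠ ε in 𝓝[>] (0 : ℝ), ∀ z ∈ W, ∀ y ∈ Metric.closedBall z r,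
      b₁ + 2 * ε < f y ∧ f y < b₂ - 2 * ε := by
    rw [Filter.eventually_all_finset]
    intro z₀ hz₀
    have hin0 := hin z₀ hz₀
    obtain ⟨δ, hδ, hδf⟩ : ∃ δ > 0, ∀ y ∈ Metric.closedBall z₀ r, b₁ + δ ≤ f y ∧ f y ≤ b₂ - δ := by
      have hne : (Metric.closedBall z₀ r).Nonempty := ⟨z₀, Metric.mem_closedBall_self hr.le⟩
      obtain ⟨y1, hy1, h1⟩ := (isCompact_closedBall z₀ r).exists_isMinOn hne hfc.continuousOn
      obtain ⟨y2, hy2, h2⟩ := (isCompact_closedBall z₀ r).exists_isMaxOn hne hfc.continuousOn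
      have h3 := (hin0 y1 hy1).2.2.1
      have h4 := (hin0 y2 hy2).2.2.2
      refine ⟨min (f y1 - b₁) (b₂ - f y2), lt_min (by linarith) (by linarith), fun y hy => ?_⟩
      have h5 : f y1 ≤ f y := h1 hy
      have h6 : f y ≤ f y2 := h2 hy
      have h7 := min_le_left (f y1 - b₁) (b₂ - f y2)
      have h8 := min_le_right (f y1 - b₁) (b₂ - f y2)
      constructor <;> linarith
    have hev3 : ∀ᶠ ε in 𝓝[>] (0 : ℝ), 2 * ε < δ := by
      have h2 : Filter.Tendsto (fun ε : ℝ => 2 * ε) (𝓝 0) (𝓝 0) := by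
        have : Continuous fun ε : ℝ => 2 * ε := by fun_prop
        simpa using this.tendsto 0
      exact nhdsWithin_le_nhds (h2.eventually (gt_mem_nhds hδ))
    filter_upwards [hev3] with ε hε y hy
    have := hδf y hy
    constructor <;> linarith
  -- the bumps
  have hexp : ∀ z ∈ W, ∃ χ : (ι → ℝ) → ℝ, ContDiff ℝ 2 χ ∧ PerL L χ ∧ (∀ y, 0 ≤ χ y ∧ χ y ≤ 1) ∧
      (∀ l ∈ L, ∀ y ∈ Metric.ball (z + rl l) (r / 4), χ y = 1) ∧
      ∀ y, (∀ l ∈ L, y ∉ Metric.closedBall (z + rl l) (r / 2)) → ∀ᶠ x in 𝓝 y, χ x = 0 :=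
    fun z hz => NoCan_bump L z r hr (hd0 z hz r le_rfl)
  have hexm : ∀ z ∈ W, ∃ χ : (ι → ℝ) → ℝ, ContDiff ℝ 2 χ ∧ PerL L χ ∧ (∀ y, 0 ≤ χ y ∧ χ y ≤ 1) ∧
      (∀ l ∈ L, ∀ y ∈ Metric.ball (z + rl l) (r / 3 / 4), χ y = 1) ∧
      ∀ y, (∀ l ∈ L, y ∉ Metric.closedBall (z + rl l) (r / 3 / 2)) → ∀ᶠ x in 𝓝 y, χ x = 0 :=
    fun z hz => NoCan_bump L z (r / 3) (by positivity) (hd0 z hz _ (by linarith))
  choose! χp hp1 hp2 hp3 hp4 hp5 using hexp
  choose! χm hm1 hm2 hm3 hm4 hm5 using hexm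
  have hp0 : ∀ z ∈ W, ∀ y, (∀ l ∈ L, y ∉ Metric.closedBall (z + rl l) r) →
      ∀ᶠ x in 𝓝 y, χp z x = 0 :=
    fun z hz y hy => hp5 z hz y fun l hl hyl => hy l hl
      (Metric.closedBall_subset_closedBall (by linarith) hyl)
  have hm0 : ∀ z ∈ W, ∀ y, (∀ l ∈ L, y ∉ Metric.closedBall (z + rl l) r) →
      ∀ᶠ x in 𝓝 y, χm z x = 0 :=
    fun z hz y hy => hm5 z hz y fun l hl hyl => hy l hl
      (Metric.closedBall_subset_closedBall (by linarith) hyl)
  have hsp : ∀ z ∈ W, ∀ y, χp z y ≠ 0 → ∃ l ∈ L, y ∈ Metric.closedBall (z + rl l) (r / 2) := by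
    intro z hz y hy
    by_contra hcon
    push Not at hcon
    exact hy (hp5 z hz y hcon).self_of_nhds
  have hsm : ∀ z ∈ W, ∀ y, χm z y ≠ 0 → ∃ l ∈ L, y ∈ Metric.closedBall (z + rl l) (r / 3 / 2) := by
    intro z hz y hy
    by_contra hcon
    push Not at hcon
    exact hy (hm5 z hz y hcon).self_of_nhds
  have hmp : ∀ z ∈ W, ∀ y, χm z y ≠ 0 → χp z y = 1 := by
    intro z hz y hy
    obtain ⟨l, hl, hyl⟩ := hsm z hz y hy
    exact hp4 z hz l hl y (Metric.closedBall_subset_ball (by linarith) hyl)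
  -- disjoint supports
  have hpm : ∀ z ∈ W, ∀ z' ∈ W, ∀ y, χp z y ≠ 0 → χm z' y ≠ 0 → z = z' := by
    intro z hz z' hz' y h1 h2
    obtain ⟨l, hl, hyl⟩ := hsp z hz y h1
    obtain ⟨l', hl', hyl'⟩ := hsm z' hz' y h2
    exact Spl_disj hd hz hz' hl hl' (Metric.closedBall_subset_closedBall (by linarith) hyl)
      (Metric.closedBall_subset_closedBall (by linarith) hyl')
  have hmm : ∀ z ∈ W, ∀ z' ∈ W, ∀ y, χm z y ≠ 0 → χm z' y ≠ 0 → z = z' := by
    intro z hz z' hz' y h1 h2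
    exact hpm z hz z' hz' y (by rw [hmp z hz y h1]; exact one_ne_zero) h2
  have hS0 : ∀ S ⊆ W, ∀ z ∈ W, z ∉ S → ∀ y, χp z y ≠ 0 → ∑ z' ∈ S, χm z' y = 0 := by
    intro S hS z hz hzS y hy
    refine Finset.sum_eq_zero fun z' hz' => ?_
    by_contra hne
    exact hzS ((hpm z hz z' (hS hz') y hy hne) ▸ hz')
  have hS1 : ∀ S ⊆ W, ∀ y, 0 ≤ ∑ z' ∈ S, χm z' y ∧ ∑ z' ∈ S, χm z' y ≤ 1 := by
    intro S hS y
    refine ⟨Finset.sum_nonneg fun z' hz' => (hm3 z' (hS hz') y).1, ?_⟩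
    by_cases h1 : ∃ z ∈ S, χm z y ≠ 0
    · obtain ⟨z, hz, hzy⟩ := h1
      rw [Finset.sum_eq_single_of_mem z hz fun z' hz' hne => by
        by_contra hne'
        exact hne (hmm z' (hS hz') z (hS hz) y hne' hzy)]
      exact (hm3 z (hS hz) y).2
    · push Not at h1
      rw [Finset.sum_eq_zero h1]
      exact zero_le_one
  have hlocp : ∀ z ∈ W, ∀ y ∈ Metric.ball z (r / 4), ∀ᶠ x in 𝓝 y, χp z x = 1 := by
    intro z hz y hy
    filter_upwards [Metric.isOpen_ball.mem_nhds hy] with x hx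
    exact hp4 z hz 0 L.zero_mem x (by rw [Win_rl_zero, add_zero]; exact hx)
  have hlocm : ∀ z ∈ W, ∀ y ∈ Metric.ball z (r / 12), ∀ᶠ x in 𝓝 y, χm z x = 1 := by
    intro z hz y hy
    have hy2 : y ∈ Metric.ball z (r / 3 / 4) := by
      rwa [show r / 3 / 4 = r / 12 by ring]
    filter_upwards [Metric.isOpen_ball.mem_nhds hy2] with x hx
    exact hm4 z hz 0 L.zero_mem x (by rw [Win_rl_zero, add_zero]; exact hx)
  have hχp0 : ∀ z ∈ W, χp z z = 1 := fun z hz =>
    (hlocp z hz z (Metric.mem_ball_self (by linarith))).self_of_nhds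
  have hχm0 : ∀ z ∈ W, χm z z = 1 := fun z hz =>
    (hlocm z hz z (Metric.mem_ball_self (by linarith))).self_of_nhds
  -- the critical points of the modifications
  have hev1 : ∀ᶠ ε in 𝓝[>] (0 : ℝ), ∀ z ∈ W, ∀ y,
      fderiv ℝ (fun x => f x + ε * (2 * (χp z x - χm z x))) y = 0 ↔ fderiv ℝ f y = 0 := by
    rw [Filter.eventually_all_finset]
    intro z hz
    refine NoCan_pert h.smooth h.per (hiso z hz) (ρ := r / 12) (by positivity)
      (χ := fun x => 2 * (χp z x - χm z x)) (contDiff_const.mul ((hp1 z hz).sub (hm1 z hz)))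
      (fun l hl y => by beta_reduce; rw [hp2 z hz l hl, hm2 z hz l hl])
      (fun y hy => by
        filter_upwards [hp0 z hz y hy, hm0 z hz y hy] with x hx hx'
        rw [hx, hx', sub_zero, mul_zero])
      (fun y hy => by
        have hy1 : y ∈ Metric.ball z (r / 4) := Metric.ball_subset_ball (by linarith) hy
        filter_upwards [hlocp z hz y hy1, hlocm z hz y hy] with x hx hx'
        rw [hx, hx', (hlocp z hz y hy1).self_of_nhds, (hlocm z hz y hy).self_of_nhds])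
  have hev2 : ∀ᶠ ε in 𝓝[>] (0 : ℝ), ∀ z ∈ W, ∀ y,
      fderiv ℝ (fun x => f x + ε * (-(2 * χm z x))) y = 0 ↔ fderiv ℝ f y = 0 := by
    rw [Filter.eventually_all_finset]
    intro z hz
    refine NoCan_pert h.smooth h.per (hiso z hz) (ρ := r / 12) (by positivity)
      (χ := fun x => -(2 * χm z x)) (contDiff_const.mul (hm1 z hz)).neg
      (fun l hl y => by beta_reduce; rw [hm2 z hz l hl])
      (fun y hy => by
        filter_upwards [hm0 z hz y hy] with x hx'
        rw [hx', mul_zero, neg_zero])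
      (fun y hy => by
        filter_upwards [hlocm z hz y hy] with x hx'
        rw [hx', (hlocm z hz y hy).self_of_nhds])
  obtain ⟨ε, ⟨⟨⟨hε1, hε2⟩, hε3⟩, hε0⟩⟩ := (((hev1.and hev2).and hroom).and
    self_mem_nhdsWithin).exists
  have hε0 : 0 < ε := hε0
  obtain ⟨z₁, hz₁⟩ := hne
  have hvb : b₁ + 2 * ε < v ∧ v < b₂ - 2 * ε := by
    have := hε3 z₁ hz₁ z₁ (Metric.mem_closedBall_self hr.le)
    rwa [hv z₁ hz₁] at this
  have hother : ∀ y, q y ≤ R → -a ≤ Q y → b₁ ≤ f y → f y ≤ b₂ → fderiv ℝ f y = 0 →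
      f y = v ∧ ∃ z ∈ W, ∃ l ∈ L, y = z + rl l := by
    intro y h1 h2 h3 h4 h5
    obtain ⟨z, hz, l, hl, rfl⟩ := h.crit y h1 h2 h3 h4 h5
    exact ⟨by rw [h.per l hl, hv z hz], z, hz, l, hl, rfl⟩
  have hlocf : ∀ z ∈ W, ∀ y, fderiv ℝ f y = 0 → (∃ l ∈ L, y ∈ Metric.closedBall (z + rl l) r) →
      ∃ l ∈ L, y = z + rl l := by
    rintro z hz y hy ⟨l, hl, hyl⟩
    refine ⟨l, hl, ?_⟩
    have h1 := hiso z hz (y - rl l) (Win_sub_mem hyl) (by
      have h3 := Sep_fderiv_per L f h.per l hl (y - rl l)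
      rw [sub_add_cancel] at h3
      rw [← h3, hy])
    rw [← h1, sub_add_cancel]
  -- the bands
  have hBh : ∀ z ∈ W, Band L q Q (fun x => f x + ε * (2 * (χp z x - χm z x))) R a (v + ε) b₂ ∅ := by
    intro z hz
    refine ⟨h.dm, h.smooth.add (contDiff_const.mul (contDiff_const.mul
      ((hp1 z hz).sub (hm1 z hz)))),
      fun l hl y => by rw [h.per l hl, hp2 z hz l hl, hm2 z hz l hl], ?_, by linarith,
      fun z hz => absurd hz (Finset.notMem_empty z), fun z hz => absurd hz (Finset.notMem_empty z),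
      ?_⟩
    · refine NoCan_bd h.dm.qp h.dm.Qp h.bd (z := z) (r := r)
        (fun y hy => ⟨(hin z hz y hy).1, (hin z hz y hy).2.1⟩) fun y hy => ?_
      filter_upwards [hp0 z hz y hy, hm0 z hz y hy] with x hx hx'
      rw [hx, hx', sub_zero, mul_zero, mul_zero, add_zero]
    · intro y h1 h2 h3 h4 h5
      exfalso
      have h6 := (hε1 z hz y).1 h5
      by_cases h7 : ∃ l ∈ L, y ∈ Metric.closedBall (z + rl l) r
      · obtain ⟨l, hl, rfl⟩ := hlocf z hz y h6 h7
        rw [h.per l hl, hp2 z hz l hl, hm2 z hz l hl, hχp0 z hz, hχm0 z hz, hv z hz] at h3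
        linarith
      · push Not at h7
        rw [(hp0 z hz y h7).self_of_nhds, (hm0 z hz y h7).self_of_nhds, sub_zero, mul_zero,
          mul_zero, add_zero] at h3 h4
        have h8 := (hother y h1 h2 (by linarith) h4 h6).1
        linarith
  have hBf : Band L q Q f R a b₁ (v - ε) ∅ := by
    refine ⟨h.dm, h.smooth, h.per, h.bd, by linarith,
      fun z hz => absurd hz (Finset.notMem_empty z), fun z hz => absurd hz (Finset.notMem_empty z),
      ?_⟩
    intro y h1 h2 h3 h4 h5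
    exfalso
    have h8 := (hother y h1 h2 h3 (by linarith) h5).1
    linarith
  have hsumper : PerL L fun x => ∑ z ∈ W, χm z x := by
    intro l hl y
    exact Finset.sum_congr rfl fun z hz => hm2 z hz l hl y
  have hcs : ∀ y, fderiv ℝ (fun x => f x - ε * (2 * ∑ z ∈ W, χm z x)) y = 0 ↔
      fderiv ℝ f y = 0 := by
    intro y
    have h1 := Spl_sum (f := f) hd (fun z x => -(2 * χm z x)) (fun z hz y hy => by
      filter_upwards [hm0 z hz y hy] with x hx'
      rw [hx', mul_zero, neg_zero]) hε2 y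
    have h2 : (fun x => f x - ε * (2 * ∑ z ∈ W, χm z x)) =
        fun x => f x + ε * ∑ z ∈ W, -(2 * χm z x) := by
      funext x
      rw [Finset.sum_neg_distrib, ← Finset.mul_sum]
      ring
    rw [h2]
    exact h1
  have hBs : Band L q Q (fun x => f x - ε * (2 * ∑ z ∈ W, χm z x)) R a (v - ε) b₂ ∅ := by
    refine ⟨h.dm, h.smooth.sub (contDiff_const.mul (contDiff_const.mul
      (ContDiff.sum fun z hz => hm1 z hz))),
      fun l hl y => by
        have h1 := hsumper l hl y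
        beta_reduce at h1 ⊢
        rw [h.per l hl, h1], ?_, by linarith,
      fun z hz => absurd hz (Finset.notMem_empty z), fun z hz => absurd hz (Finset.notMem_empty z),
      ?_⟩
    · intro y hqy hQy hy
      obtain ⟨i, s, h3, h4, h5⟩ := h.bd y hqy hQy hy
      have h1 : ∀ z ∈ W, ∀ l ∈ L, y ∉ Metric.closedBall (z + rl l) r := by
        intro z hz l hl hyl
        have h2 := hin z hz (y - rl l) (Win_sub_mem hyl)
        rw [Win_shift h.dm.qp hl, Win_shift h.dm.Qp hl] at h2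
        rcases hy with hy | hy
        · exact absurd h2.1 (by rw [hy]; exact lt_irrefl _)
        · exact absurd h2.2.1 (by rw [hy]; exact lt_irrefl _)
      have h6 : ∀ᶠ x in 𝓝 y, ∀ z ∈ W, χm z x = 0 := by
        rw [Filter.eventually_all_finset]
        exact fun z hz => hm0 z hz y (h1 z hz)
      have h7 : (fun x => f x - ε * (2 * ∑ z ∈ W, χm z x)) =ᶠ[𝓝 y] f := by
        filter_upwards [h6] with x hx
        rw [Finset.sum_eq_zero hx, mul_zero, mul_zero, sub_zero]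
      exact ⟨i, s, by rw [h7.fderiv_eq]; exact h3, h4, h5⟩
    · intro y h1 h2 h3 h4 h5
      exfalso
      have h6 := (hcs y).1 h5
      have hS := hS1 W Finset.Subset.rfl y
      beta_reduce at h3 h4
      have h7 : v - ε ≤ f y := by nlinarith [hS.1]
      have h8 : f y ≤ b₂ := by
        by_cases h9 : ∃ z ∈ W, ∃ l ∈ L, y ∈ Metric.closedBall (z + rl l) r
        · obtain ⟨z, hz, l, hl, hyl⟩ := h9
          have := hε3 z hz (y - rl l) (Win_sub_mem hyl)
          rw [Win_shift h.per hl] at this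
          linarith
        · push Not at h9
          rw [Finset.sum_eq_zero fun z hz => (hm0 z hz y (h9 z hz)).self_of_nhds, mul_zero,
            mul_zero, sub_zero] at h4
          exact h4
      obtain ⟨h9, z, hz, l, hl, rfl⟩ := hother y h1 h2 (by linarith) h8 h6
      have h10 : ∑ z' ∈ W, χm z' (z + rl l) = 1 := by
        rw [Finset.sum_eq_single_of_mem z hz fun z' hz' hne => by
          by_contra hne'
          rw [hm2 z' hz' l hl] at hne'
          exact hne (hmm z' hz' z hz z hne' (by rw [hχm0 z hz]; exact one_ne_zero))]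
        rw [hm2 z hz l hl, hχm0 z hz]
      rw [h10, h9] at h3
      linarith
  -- the level `b₂`
  have hlev : ∀ c : (ι → ℝ) → ℝ, (∀ y, |c y| ≤ 1) →
      (∀ y, (∀ z ∈ W, ∀ l ∈ L, y ∉ Metric.closedBall (z + rl l) r) → c y = 0) →
      ∀ m, Lv q Q (fun x => f x + ε * (2 * c x)) R a b₂ m = Lv q Q f R a b₂ m := by
    intro c hc1 hc0 m
    have h1 : ∀ y, f y + ε * (2 * c y) ≤ b₂ ↔ f y ≤ b₂ := by
      intro y
      by_cases h7 : ∃ z ∈ W, ∃ l ∈ L, y ∈ Metric.closedBall (z + rl l) r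
      · obtain ⟨z, hz, l, hl, hyl⟩ := h7
        have h8 := (hε3 z hz (y - rl l) (Win_sub_mem hyl)).2
        rw [Win_shift h.per hl] at h8
        have h9 : ε * (2 * c y) ≤ 2 * ε := by
          have := (abs_le.1 (hc1 y)).2
          nlinarith
        constructor
        · intro _; linarith
        · intro _; linarith
      · push Not at h7
        rw [hc0 y h7, mul_zero, mul_zero, add_zero]
    ext w
    simp only [Lv, Set.mem_ofPred_eq, h1]
  have hlevh : ∀ z ∈ W, ∀ m, Lv q Q (fun x => f x + ε * (2 * (χp z x - χm z x))) R a b₂ m =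
      Lv q Q f R a b₂ m := fun z hz => hlev (fun y => χp z y - χm z y) (fun y => by
    rw [abs_le]
    constructor
    · linarith [(hp3 z hz y).1, (hm3 z hz y).2]
    · linarith [(hp3 z hz y).2, (hm3 z hz y).1])
    (fun y hy => by
      beta_reduce
      rw [(hp0 z hz y (hy z hz)).self_of_nhds, (hm0 z hz y (hy z hz)).self_of_nhds, sub_zero])
  have hlevs : ∀ m, Lv q Q (fun x => f x - ε * (2 * ∑ z ∈ W, χm z x)) R a b₂ m =
      Lv q Q f R a b₂ m := by
    intro m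
    rw [← hlev (fun y => -∑ z ∈ W, χm z y) (fun y => by
      rw [abs_le]
      have := hS1 W Finset.Subset.rfl y
      constructor <;> linarith)
      (fun y hy => by
        beta_reduce
        rw [Finset.sum_eq_zero fun z hz => (hm0 z hz y (hy z hz)).self_of_nhds, neg_zero]) m]
    congr 1
    funext x
    ring
  have hmesh : ∀ᶠ M : ℕ in atTop, 1 / ((2 ^ M : ℕ) : ℝ) < r / 12 := by
    have h1 : Filter.Tendsto (fun M : ℕ => (1 / 2 : ℝ) ^ M) atTop (𝓝 0) :=
      tendsto_pow_atTop_nhds_zero_of_lt_one (by norm_num) (by norm_num)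
    filter_upwards [h1.eventually (gt_mem_nhds (show (0 : ℝ) < r / 12 by positivity))] with M hM
    push_cast
    rw [one_div_pow] at hM
    exact hM
  have hwin : ∀ᶠ M : ℕ in atTop, ∀ z ∈ W, ∀ j, HR F (lam L (2 ^ M))
      (Lv q Q (fun x => f x + ε * (2 * (χp z x - χm z x))) R a b₂ (2 ^ M))
      (Lv q Q (fun x => f x + ε * (2 * (χp z x - χm z x))) R a (v + ε) (2 ^ M)) j 0 := by
    rw [Filter.eventually_all_finset]
    intro z hz
    filter_upwards [window_out F (hBh z hz)] with M hM j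
    exact hM j fun z hz => absurd hz (Finset.notMem_empty z)
  filter_upwards [hwin, window_out F hBf, window_out F hBs, hmesh] with M hM1 hM2 hM3 hM4 j hj
  have h0M : 0 < 2 ^ M := by positivity
  have hU : ∀ z ∈ W, ∀ j, HR F (lam L (2 ^ M)) (Lv q Q f R a b₂ (2 ^ M))
      (Lv q Q (fun x => f x + ε * (2 * (χp z x - χm z x))) R a (v + ε) (2 ^ M)) j 0 := by
    intro z hz j
    rw [← hlevh z hz (2 ^ M)]
    exact hM1 z hz j
  have hA : ∀ j, HR F (lam L (2 ^ M)) (Lv q Q f R a (v - ε) (2 ^ M))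
      (Lv q Q f R a b₁ (2 ^ M)) j 0 := fun j => hM2 j fun z hz => absurd hz (Finset.notMem_empty z)
  have hC : ∀ j, HR F (lam L (2 ^ M)) (Lv q Q f R a b₂ (2 ^ M))
      (Lv q Q (fun x => f x - ε * (2 * ∑ z ∈ W, χm z x)) R a (v - ε) (2 ^ M)) j 0 := by
    intro j
    rw [← hlevs (2 ^ M)]
    exact hM3 j fun z hz => absurd hz (Finset.notMem_empty z)
  have hBinv := Lv_inv h.dm.qp h.dm.Qp h.per R a b₂ h0M
  have hA'inv := Lv_inv h.dm.qp h.dm.Qp h.per R a (v - ε) h0M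
  -- permutations
  have hps : ∀ w : ι → ℤ, ps (2 ^ M) (w ∘ π) = ps (2 ^ M) w ∘ π := fun w => rfl
  have hPI : ∀ α, PInv π (Lv q Q f R a α (2 ^ M)) := by
    intro α w
    simp only [Lv, Set.mem_ofPred_eq, hps, hq, hQ, hf]
  have hLm : ∀ l ∈ lam L (2 ^ M), l ∘ π = l := by
    rintro _ ⟨l, hl, rfl⟩
    funext i
    have := congrFun (hL l hl) i
    simp only [Function.comp_apply, Pi.smul_apply] at this ⊢
    rw [this]
  -- the sets
  let B : Set (ι → ℤ) := Lv q Q f R a b₂ (2 ^ M)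
  let A' : Set (ι → ℤ) := Lv q Q f R a (v - ε) (2 ^ M)
  let Mp : (ι → ℝ) → Set (ι → ℤ) := fun z =>
    Lv q Q (fun x => f x + ε * (2 * χp z x)) R a (v + ε) (2 ^ M)
  let Mm : (ι → ℝ) → Set (ι → ℤ) := fun z =>
    Lv q Q (fun x => f x - ε * (2 * χm z x)) R a (v - ε) (2 ^ M)
  let U : (ι → ℝ) → Set (ι → ℤ) := fun z =>
    Lv q Q (fun x => f x + ε * (2 * (χp z x - χm z x))) R a (v + ε) (2 ^ M)
  let C : Finset (ι → ℝ) → Set (ι → ℤ) := fun S =>
    Lv q Q (fun x => f x - ε * (2 * ∑ z ∈ S, χm z x)) R a (v - ε) (2 ^ M)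
  have hMpinv : ∀ z ∈ W, Inv (lam L (2 ^ M)) (Mp z) := fun z hz =>
    Lv_inv h.dm.qp h.dm.Qp (fun l hl y => by beta_reduce; rw [h.per l hl, hp2 z hz l hl]) R a
      (v + ε) h0M
  have hA'p : ∀ z ∈ W, A' ⊆ Mp z := by
    rintro z hz w ⟨h1, h2⟩
    refine ⟨h1, h2.imp id fun h3 => ?_⟩
    have h4 := hp3 z hz (ps (2 ^ M) w)
    beta_reduce
    nlinarith
  have hA'C : ∀ S ⊆ W, A' ⊆ C S := by
    rintro S hS w ⟨h1, h2⟩
    refine ⟨h1, h2.imp id fun h3 => ?_⟩
    have h4 := hS1 S hS (ps (2 ^ M) w)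
    beta_reduce
    nlinarith
  have hA'm : ∀ z ∈ W, A' ⊆ Mm z := by
    rintro z hz w ⟨h1, h2⟩
    refine ⟨h1, h2.imp id fun h3 => ?_⟩
    have h4 := hm3 z hz (ps (2 ^ M) w)
    beta_reduce
    nlinarith
  have hinter : ∀ z ∈ W, ∀ w, w ∈ Mp z → w ∈ Mm z → w ∈ A' := by
    rintro z hz w ⟨h1, h2⟩ ⟨-, h3⟩
    refine ⟨h1, ?_⟩
    rcases h2 with h2 | h2
    · exact Or.inl h2
    rcases h3 with h3 | h3
    · exact Or.inl h3
    refine Or.inr ?_
    beta_reduce at h2 h3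
    by_cases h6 : χm z (ps (2 ^ M) w) = 0
    · rw [h6] at h3; linarith
    · rw [hmp z hz _ h6] at h2; linarith
  have hunion : ∀ z ∈ W, ∀ w, w ∈ U z → w ∈ Mp z ∨ w ∈ Mm z := by
    rintro z hz w ⟨h1, h2⟩
    rcases h2 with h2 | h2
    · exact Or.inl ⟨h1, Or.inl h2⟩
    beta_reduce at h2
    by_cases h6 : χm z (ps (2 ^ M) w) = 0
    · left
      refine ⟨h1, Or.inr ?_⟩
      rw [h6] at h2
      beta_reduce
      linarith
    · right
      refine ⟨h1, Or.inr ?_⟩
      rw [hmp z hz _ h6] at h2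
      beta_reduce
      linarith
  have hpU : ∀ z ∈ W, Mp z ⊆ U z := by
    rintro z hz w ⟨h1, h2⟩
    refine ⟨h1, h2.imp id fun h3 => ?_⟩
    have h4 := hm3 z hz (ps (2 ^ M) w)
    beta_reduce at h3 ⊢
    nlinarith
  have hsep : ∀ z ∈ W, ∀ w w', Adj w w' → w ∈ Mp z → w ∉ Mm z → w' ∈ Mm z → w' ∈ Mp z := by
    intro z hz w w' hww hw1 hw2 hw3
    by_contra hw4
    have hQ1 : ¬ Q (ps (2 ^ M) w) ≤ -a := fun h1 => hw2 ⟨hw1.1, Or.inl h1⟩
    have h1 : f (ps (2 ^ M) w) + ε * (2 * χp z (ps (2 ^ M) w)) ≤ v + ε :=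
      hw1.2.resolve_left hQ1
    have h2 : ¬ f (ps (2 ^ M) w) - ε * (2 * χm z (ps (2 ^ M) w)) ≤ v - ε := fun h3 =>
      hw2 ⟨hw1.1, Or.inr h3⟩
    have hQ2 : ¬ Q (ps (2 ^ M) w') ≤ -a := fun h1 => hw4 ⟨hw3.1, Or.inl h1⟩
    have h3 : f (ps (2 ^ M) w') - ε * (2 * χm z (ps (2 ^ M) w')) ≤ v - ε :=
      hw3.2.resolve_left hQ2
    have h4 : ¬ f (ps (2 ^ M) w') + ε * (2 * χp z (ps (2 ^ M) w')) ≤ v + ε := fun h5 =>
      hw4 ⟨hw3.1, Or.inr h5⟩
    rw [not_le] at h2 h4
    have h5 : χp z (ps (2 ^ M) w) ≠ 1 := by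
      intro h6
      rw [h6] at h1
      have := (hm3 z hz (ps (2 ^ M) w)).1
      nlinarith
    have h6 : χm z (ps (2 ^ M) w') ≠ 0 := by
      intro h6
      rw [h6] at h3
      have := (hp3 z hz (ps (2 ^ M) w')).2
      nlinarith
    obtain ⟨l, hl, hyl⟩ := hsm z hz _ h6
    refine h5 (hp4 z hz l hl _ ?_)
    rw [Metric.mem_closedBall] at hyl
    rw [Metric.mem_ball]
    have h7 := NoCan_adj h0M hww
    have h8 := dist_triangle (ps (2 ^ M) w) (ps (2 ^ M) w') (z + rl l)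
    linarith
  -- the sum at a point of the support of `χp z`
  have hCU : ∀ S ⊆ W, ∀ z ∈ W, z ∉ S → C S ⊆ U z := by
    rintro S hS z hz hzS w ⟨h1, h2⟩
    refine ⟨h1, h2.imp id fun h3 => ?_⟩
    beta_reduce at h3 ⊢
    have h4 := hS1 S hS (ps (2 ^ M) w)
    have h5 := hp3 z hz (ps (2 ^ M) w)
    have h6 := hm3 z hz (ps (2 ^ M) w)
    by_cases h7 : χp z (ps (2 ^ M) w) = 0
    · rw [h7]
      nlinarith
    · rw [hS0 S hS z hz hzS _ h7] at h3
      nlinarith
  have hC'U : ∀ S ⊆ W, ∀ z ∈ W, z ∉ S → C (insert z S) ⊆ U z := by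
    rintro S hS z hz hzS w ⟨h1, h2⟩
    refine ⟨h1, h2.imp id fun h3 => ?_⟩
    beta_reduce at h3 ⊢
    rw [Finset.sum_insert hzS] at h3
    have h4 := hS1 S hS (ps (2 ^ M) w)
    have h5 := hp3 z hz (ps (2 ^ M) w)
    have h6 := hm3 z hz (ps (2 ^ M) w)
    by_cases h7 : χp z (ps (2 ^ M) w) = 0
    · have h8 : χm z (ps (2 ^ M) w) = 0 := by
        by_contra h9
        rw [hmp z hz _ h9] at h7
        exact one_ne_zero h7
      rw [h8] at h3 ⊢
      rw [h7]
      nlinarith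
    · rw [hS0 S hS z hz hzS _ h7] at h3
      nlinarith
  have hC' : ∀ S ⊆ W, ∀ z ∈ W, z ∉ S → ∀ σ, Simp σ → (∀ w ∈ σ, w ∈ C (insert z S)) →
      (∀ w ∈ σ, w ∈ C S) ∨ ∀ w ∈ σ, w ∈ Mm z := by
    intro S hS z hz hzS σ hσ h1
    by_cases h2 : ∀ w ∈ σ, w ∈ C S
    · exact Or.inl h2
    right
    push Not at h2
    obtain ⟨w, hw, hwC⟩ := h2
    have hQ1 : ¬ Q (ps (2 ^ M) w) ≤ -a := fun h3 => hwC ⟨(h1 w hw).1, Or.inl h3⟩
    have h3 : f (ps (2 ^ M) w) - ε * (2 * ∑ z' ∈ insert z S, χm z' (ps (2 ^ M) w)) ≤ v - ε :=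
      (h1 w hw).2.resolve_left hQ1
    have h4 : χm z (ps (2 ^ M) w) ≠ 0 := by
      intro h5
      rw [Finset.sum_insert hzS, h5, zero_add] at h3
      exact hwC ⟨(h1 w hw).1, Or.inr h3⟩
    intro w' hw'
    have h5 := h1 w' hw'
    rcases h5.2 with h6 | h6
    · exact ⟨h5.1, Or.inl h6⟩
    refine ⟨h5.1, Or.inr ?_⟩
    beta_reduce at h6 ⊢
    rw [Finset.sum_insert hzS] at h6
    have h7 : ∑ z' ∈ S, χm z' (ps (2 ^ M) w') = 0 := by
      refine Finset.sum_eq_zero fun z' hz' => ?_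
      by_contra h8
      obtain ⟨l, hl, hyl⟩ := hsm z hz _ h4
      obtain ⟨l', hl', hyl'⟩ := hsm z' (hS hz') _ h8
      have h9 : z = z' := by
        refine Spl_disj hd hz (hS hz') hl hl' (y := ps (2 ^ M) w)
          (Metric.closedBall_subset_closedBall (by linarith) hyl) ?_
        rw [Metric.mem_closedBall] at hyl' ⊢
        have h10 := NoCan_adj h0M (hσ w hw w' hw')
        have h11 := dist_triangle (ps (2 ^ M) w) (ps (2 ^ M) w') (z' + rl l')
        linarith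
      exact hzS (h9 ▸ hz')
    rw [h7, add_zero] at h6
    exact h6
  -- the image under the permutation
  have hMT : ∀ z ∈ W, ∀ w, w ∈ Mm z → w ∘ π ∈ Mp z := by
    rintro z hz w ⟨h1, h2⟩
    refine ⟨by rw [hps, hq]; exact h1, ?_⟩
    rw [hps, hQ]
    refine h2.imp id fun h3 => ?_
    beta_reduce at h3 ⊢
    rw [hf]
    have h4 := hp3 z hz (ps (2 ^ M) w ∘ π)
    by_cases h5 : χm z (ps (2 ^ M) w) = 0
    · rw [h5] at h3
      nlinarith
    · have h6 : χp z (ps (2 ^ M) w ∘ π) = 0 := by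
        by_contra h7
        obtain ⟨l, hl, hyl⟩ := hsm z hz _ h5
        obtain ⟨l', hl', hyl'⟩ := hsp z hz _ h7
        have h8 : ps (2 ^ M) w ∘ π ∈ Metric.closedBall (z ∘ π + rl l) r := by
          rw [Metric.mem_closedBall, dist_pi_le_iff hr.le]
          intro i
          have h9 : dist (ps (2 ^ M) w) (z + rl l) ≤ r := by
            rw [Metric.mem_closedBall] at hyl
            linarith
          have h10 := (dist_le_pi_dist (ps (2 ^ M) w) (z + rl l) (π i)).trans h9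
          have h11 : (z + rl l) (π i) = (z ∘ π + rl l) i := by
            have h12 := congrFun (hL l hl) i
            simp only [Pi.add_apply, Function.comp_apply, rl] at h12 ⊢
            rw [h12]
          rw [h11] at h10
          exact h10
        have h9 := Spl_disj (hdπ z hz) (Finset.mem_insert_of_mem (Finset.mem_singleton_self _))
          (Finset.mem_insert_self _ _) hl hl' h8
          (Metric.closedBall_subset_closedBall (by linarith) hyl')
        refine hfree z hz 0 L.zero_mem ?_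
        rw [h9, Win_rl_zero, add_zero]
      rw [h6]
      have h7 := (hm3 z hz (ps (2 ^ M) w)).2
      nlinarith
  have hMpB : ∀ z ∈ W, Mp z ⊆ B := by
    rintro z hz w ⟨h1, h2⟩
    refine ⟨h1, h2.imp id fun h3 => ?_⟩
    beta_reduce at h3
    have h4 := (hp3 z hz (ps (2 ^ M) w)).1
    have h5 := hvb.2
    nlinarith
  have hAA' : Lv q Q f R a b₁ (2 ^ M) ⊆ A' := Lv_mono q Q f R a (by linarith [hvb.1]) _
  have hA'B : A' ⊆ B := Lv_mono q Q f R a (by linarith [hvb.2]) _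
  -- the pieces are acyclic
  have hpiece : ∀ z ∈ W, ∀ u ∈ co (F := F) (lam L (2 ^ M)) B (Mp z) (j + 1), dX B u = 0 →
      ∃ y ∈ co (F := F) (lam L (2 ^ M)) B (Mp z) j, dX B y = u := by
    intro z hz u hu hdu
    have huA' : u ∈ co (F := F) (lam L (2 ^ M)) B A' (j + 1) := co_anti (hA'p z hz) _ hu
    obtain ⟨y, hy, hyu⟩ := hj u (co_anti hAA' _ huA') hdu
    obtain ⟨y', hy', hyu'⟩ := split_low hA'inv hBinv hAA' hA'B hA hy
      (Submodule.sub_mem _ huA' (Free_T_mem hLm (hPI b₂) (hPI (v - ε)) huA')) hyu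
    exact split_one (hMpinv z hz) hBinv (hinter z hz) (hunion z hz) (hpU z hz) (hsep z hz)
      (hU z hz j) hu (Spl_T_mem hLm (hPI b₂) (hMT z hz) hu) hdu hy' hyu'
  -- the decomposition
  have hdec : ∀ S ⊆ W, ∀ x ∈ co (F := F) (lam L (2 ^ M)) B A' (j + 1), dX B x = 0 →
      ∃ y ∈ co (F := F) (lam L (2 ^ M)) B A' j, ∃ x' ∈ co (F := F) (lam L (2 ^ M)) B (C S) (j + 1),
        dX B x' = 0 ∧ x = x' + dX B y := by
    intro S
    induction S using Finset.induction_on with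
    | empty =>
      intro _ x hx hdx
      refine ⟨0, Submodule.zero_mem _, x, ?_, hdx, by rw [map_zero, add_zero]⟩
      have h1 : C ∅ = A' := by
        change Lv q Q (fun x => f x - ε * (2 * ∑ z ∈ (∅ : Finset (ι → ℝ)), χm z x)) R a (v - ε)
          (2 ^ M) = Lv q Q f R a (v - ε) (2 ^ M)
        congr 1
        funext x
        rw [Finset.sum_empty, mul_zero, mul_zero, sub_zero]
      rw [h1]
      exact hx
    | insert z S hzS ih =>
      intro hS x hx hdx
      have hz : z ∈ W := hS (Finset.mem_insert_self _ _)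
      have hSW : S ⊆ W := fun z' hz' => hS (Finset.mem_insert_of_mem hz')
      obtain ⟨y, hy, x', hx', hdx', rfl⟩ := ih hSW x hx hdx
      obtain ⟨x1, hx1, x2, hx2, hdx1, hdx2, rfl⟩ := split_dec (C' := C (insert z S))
        (hMpinv z hz) hBinv (fun w h1 h2 => hA'C S hSW (hinter z hz w h1 h2)) (hunion z hz)
        (hsep z hz) (hpU z hz) (hCU S hSW z hz hzS) (hC'U S hSW z hz hzS) (hC' S hSW z hz hzS)
        (hU z hz (j + 1)) hx' hdx'
      obtain ⟨y1, hy1, hyx1⟩ := hpiece z hz x1 hx1 hdx1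
      refine ⟨y1 + y, Submodule.add_mem _ (co_anti (hA'p z hz) _ hy1) hy, x2, hx2, hdx2, ?_⟩
      rw [map_add, hyx1]
      abel
  -- the end
  rw [Exc_HR]
  intro x hx hdx
  obtain ⟨z, hz, hxz⟩ := split_low' hA'inv hBinv hAA' hA'B hA hx hdx
  obtain ⟨y, hy, x', hx', hdx', hxx⟩ := hdec W Finset.Subset.rfl _ hxz
    (by rw [map_sub, dX_dX, sub_zero]; exact hdx)
  obtain ⟨y', hy', hyx'⟩ := Exc_HR.1 (hC j) x' hx' hdx'
  refine ⟨z + y + y', Submodule.add_mem _ (Submodule.add_mem _ hz (co_anti hAA' _ hy))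
    (co_anti (hAA'.trans (hA'C W Finset.Subset.rfl)) _ hy'), ?_⟩
  rw [map_add, map_add, hyx']
  have h1 : x = x' + dX B y + dX B z := by
    rw [← hxx]
    abel
  rw [h1]
  abel

end Pool.Agent.H15.FU
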